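import Mathlib

/-!
# A partial matrix with `tmr < fmr = mr`, over every field
-/

set_option autoImplicit false

namespace Pool.Agent.Results.MP_f8e91b_al.TmrLtFmrEqMr

open Matrix

/-- A partial matrix: `none` is an unspecified entry, `some a` a known entry `a`. -/
abbrev PartialMatrix (F : Type*) (m n : Type) := m → n → Option F

section defs

variable {F : Type*} [Field F] {m n : Type} [Fintype m] [Fintype n]

/-- The pattern of knowns. -/
def known (A : PartialMatrix F m n) : Set (m × n) := {p | (A p.1 p.2).isSome}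

/-- `B` is a completion of `A`. -/
def IsCompletion (A : PartialMatrix F m n) (B : Matrix m n F) : Prop :=
  ∀ i j a, A i j = some a → B i j = a

/-- The minimal rank. -/
noncomputable def mr (A : PartialMatrix F m n) : ℕ :=
  sInf {r | ∃ B : Matrix m n F, IsCompletion A B ∧ B.rank = r}

/-- Triangular patterns. -/
def IsTriangular (T : Set (m × n)) : Prop :=
  ∀ i j k l, (i, j) ∈ T → (k, l) ∈ T → (i, l) ∈ T ∨ (k, j) ∈ T

/-- Keep only the known entries indexed by `T`. -/
noncomputable def restrict (A : PartialMatrix F m n) (T : Set (m × n)) : PartialMatrix F m n :=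
  open Classical in fun i j => if (i, j) ∈ T then A i j else none

/-- The triangular minimal rank. -/
noncomputable def tmr (A : PartialMatrix F m n) : ℕ :=
  sSup {r | ∃ T : Set (m × n), Maximal (fun T => T ⊆ known A ∧ IsTriangular T) T ∧
    r = mr (restrict A T)}

/-- The partial block matrix `A ⊗ I_b`. -/
def tensor (A : PartialMatrix F m n) (b : ℕ) : PartialMatrix F (m × Fin b) (n × Fin b) :=
  fun p q => (A p.1 q.1).map fun a => if p.2 = q.2 then a else 0

/-- The fractional minimal rank. -/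
noncomputable def fmr (A : PartialMatrix F m n) : ℝ :=
  ⨅ b : {b : ℕ // 1 ≤ b}, (mr (tensor A b) : ℝ) / (b : ℕ)

end defs

section block

variable {F : Type*} [Field F] {N : Type} [Fintype N] [DecidableEq N]

theorem rank_block (X D : Matrix N N F) :
    2 * Fintype.card N ≤ (Matrix.fromBlocks 1 X D 1).rank +
      Module.finrank F (LinearMap.ker (1 - D * X).mulVecLin) := by
  have h1 := LinearMap.finrank_range_add_finrank_ker (Matrix.fromBlocks 1 X D 1).mulVecLin
  have h2 : Module.finrank F (LinearMap.ker (Matrix.fromBlocks 1 X D 1).mulVecLin) ≤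
      Module.finrank F (LinearMap.ker (1 - D * X).mulVecLin) := by
    let g : (N ⊕ N → F) →ₗ[F] (N → F) := LinearMap.funLeft F F Sum.inr
    have hk : ∀ w ∈ LinearMap.ker (Matrix.fromBlocks 1 X D 1).mulVecLin,
        w ∘ Sum.inl = - (X *ᵥ (w ∘ Sum.inr)) ∧ (1 - D * X) *ᵥ (w ∘ Sum.inr) = 0 := by
      intro w hw
      rw [LinearMap.mem_ker, Matrix.mulVecLin_apply, Matrix.fromBlocks_mulVec] at hw
      have ha : (1 : Matrix N N F) *ᵥ (w ∘ Sum.inl) + X *ᵥ (w ∘ Sum.inr) = 0 := by
        funext i; exact congrFun hw (Sum.inl i)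
      have hb : D *ᵥ (w ∘ Sum.inl) + (1 : Matrix N N F) *ᵥ (w ∘ Sum.inr) = 0 := by
        funext i; exact congrFun hw (Sum.inr i)
      rw [Matrix.one_mulVec] at ha hb
      have ha' := eq_neg_of_add_eq_zero_left ha
      refine ⟨ha', ?_⟩
      rw [ha', Matrix.mulVec_neg, Matrix.mulVec_mulVec] at hb
      rw [Matrix.sub_mulVec, Matrix.one_mulVec, ← hb]
      abel
    let g' : LinearMap.ker (Matrix.fromBlocks 1 X D 1).mulVecLin →ₗ[F]
        LinearMap.ker (1 - D * X).mulVecLin :=
      g.restrict fun w hw => by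
        rw [LinearMap.mem_ker, Matrix.mulVecLin_apply]
        exact (hk w hw).2
    refine LinearMap.finrank_le_finrank_of_injective (f := g') ?_
    rw [← LinearMap.ker_eq_bot, LinearMap.ker_eq_bot']
    rintro ⟨w, hw⟩ h0
    have h0' : w ∘ Sum.inr = 0 := congrArg Subtype.val h0
    have := (hk w hw).1
    rw [h0', Matrix.mulVec_zero, neg_zero] at this
    ext i
    rcases i with i | i
    · exact congrFun this i
    · exact congrFun h0' i
  rw [Matrix.rank]
  have h3 : Module.finrank F (N ⊕ N → F) = 2 * Fintype.card N := by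
    rw [Module.finrank_fintype_fun_eq_card, Fintype.card_sum]; ring
  omega

theorem rank_two (X C : Matrix N N F) (hC : ∀ v : N → F, C *ᵥ v = v → v = 0) (r : ℕ)
    (h1 : (Matrix.fromBlocks 1 X 1 1 : Matrix (N ⊕ N) (N ⊕ N) F).rank ≤ r)
    (h2 : (Matrix.fromBlocks 1 X C 1 : Matrix (N ⊕ N) (N ⊕ N) F).rank ≤ r) :
    3 * Fintype.card N ≤ 2 * r := by
  have a1 := rank_block X 1
  have a2 := rank_block X C
  have hd : Disjoint (LinearMap.ker (1 - 1 * X).mulVecLin)
      (LinearMap.ker (1 - C * X).mulVecLin) := by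
    rw [Submodule.disjoint_def]
    intro v hv1 hv2
    rw [LinearMap.mem_ker, Matrix.mulVecLin_apply, Matrix.sub_mulVec, Matrix.one_mulVec,
      sub_eq_zero] at hv1 hv2
    rw [one_mul] at hv1
    rw [← Matrix.mulVec_mulVec, ← hv1] at hv2
    exact hC v hv2.symm
  have a3 := Submodule.finrank_add_finrank_le_of_disjoint hd
  rw [Module.finrank_fintype_fun_eq_card] at a3
  omega

end block

section general

variable {F : Type*} [Field F] {m n : Type} [Fintype n]

theorem exists_completion (A : PartialMatrix F m n) :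
    ∃ B : Matrix m n F, IsCompletion A B ∧ B.rank = mr A := by
  refine Nat.sInf_mem (s := {r | ∃ B : Matrix m n F, IsCompletion A B ∧ B.rank = r})
    ⟨_, fun i j => (A i j).getD 0, ?_, rfl⟩
  intro i j a h
  simp [h]

theorem mr_le {A : PartialMatrix F m n} {B : Matrix m n F} (h : IsCompletion A B) :
    mr A ≤ B.rank := Nat.sInf_le ⟨B, h, rfl⟩

omit [Field F] [Fintype n] in
theorem restrict_eq {A : PartialMatrix F m n} {T : Set (m × n)} {i : m} {j : n} {a : F}
    (h : restrict A T i j = some a) : (i, j) ∈ T ∧ A i j = some a := by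
  unfold restrict at h
  split_ifs at h with h1
  exact ⟨h1, h⟩

end general

section example_

variable (F : Type*) [Field F]

/-- The partial matrix with blocks `[[I, I, ?], [?, I, I], [C, ?, I]]`, `C = [[0, 1], [1, 1]]`. -/
def A₀ : PartialMatrix F (Fin 6) (Fin 6) :=
  ![![some 1, some 0, some 1, some 0, none, none],
    ![some 0, some 1, some 0, some 1, none, none],
    ![none, none, some 1, some 0, some 1, some 0],
    ![none, none, some 0, some 1, some 0, some 1],
    ![some 0, some 1, none, none, some 1, some 0],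
    ![some 1, some 1, none, none, some 0, some 1]]

/-- A completion of rank three. -/
def B₀ : Matrix (Fin 6) (Fin 6) F :=
  (!![1, 0, 0; 0, 1, 0; 0, 1, 1; 0, 1, 0; 0, 1, 1; 1, 1, 1] : Matrix (Fin 6) (Fin 3) F) *
    (!![1, 0, 1, 0, -1, 1; 0, 1, 0, 1, 0, 1; 0, 0, 1, -1, 1, -1] : Matrix (Fin 3) (Fin 6) F)

/-- A rank two matrix, correct outside the upper left block. -/
def B₁ : Matrix (Fin 6) (Fin 6) F :=
  (!![1, 0; 0, 1; 1, 0; 0, 1; 1, 0; 0, 1] : Matrix (Fin 6) (Fin 2) F) *
    (!![0, 1, 1, 0, 1, 0; 1, 1, 0, 1, 0, 1] : Matrix (Fin 2) (Fin 6) F)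

/-- A rank two matrix, correct outside the block `(2, 3)`. -/
def B₂ : Matrix (Fin 6) (Fin 6) F :=
  (!![1, 0; 0, 1; 1, 0; 0, 1; 0, 1; 1, 1] : Matrix (Fin 6) (Fin 2) F) *
    (!![1, 0, 1, 0, -1, 1; 0, 1, 0, 1, 1, 0] : Matrix (Fin 2) (Fin 6) F)

theorem B₀_completion : IsCompletion (A₀ F) (B₀ F) := by
  intro i j a h
  fin_cases i <;> fin_cases j <;>
    simp [A₀, B₀, Matrix.mul_apply, Fin.sum_univ_three] at h ⊢ <;> exact h

theorem B₁_completion (i j : Fin 6) (a : F) (h : A₀ F i j = some a) (hij : ¬ (i < 2 ∧ j < 2)) :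
    B₁ F i j = a := by
  fin_cases i <;> fin_cases j <;> first | (exact absurd (by decide) hij) |
    (simp [A₀, B₁, Matrix.mul_apply, Fin.sum_univ_two] at h ⊢ <;> exact h)

theorem B₂_completion (i j : Fin 6) (a : F) (h : A₀ F i j = some a)
    (hij : ¬ ((i = 2 ∨ i = 3) ∧ (j = 4 ∨ j = 5))) : B₂ F i j = a := by
  fin_cases i <;> fin_cases j <;> first | (exact absurd (by decide) hij) |
    (simp [A₀, B₂, Matrix.mul_apply, Fin.sum_univ_two] at h ⊢ <;> exact h)

theorem rank_B₀ : (B₀ F).rank ≤ 3 :=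
  (Matrix.rank_mul_le_left _ _).trans (Matrix.rank_le_width _)

theorem rank_B₁ : (B₁ F).rank ≤ 2 :=
  (Matrix.rank_mul_le_left _ _).trans (Matrix.rank_le_width _)

theorem rank_B₂ : (B₂ F).rank ≤ 2 :=
  (Matrix.rank_mul_le_left _ _).trans (Matrix.rank_le_width _)

theorem unknown₁ (i l : Fin 6) (hi : i < 2) (hl : l = 4 ∨ l = 5) : ¬ (A₀ F i l).isSome := by
  fin_cases i <;> fin_cases l <;>
    first
    | exact absurd hi (by decide)
    | exact absurd hl (by decide)
    | simp [A₀]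

theorem unknown₂ (k j : Fin 6) (hk : k = 2 ∨ k = 3) (hj : j < 2) : ¬ (A₀ F k j).isSome := by
  fin_cases k <;> fin_cases j <;>
    first
    | exact absurd hk (by decide)
    | exact absurd hj (by decide)
    | simp [A₀]

theorem mr_triangular (T : Set (Fin 6 × Fin 6)) (h1 : T ⊆ known (A₀ F)) (h2 : IsTriangular T) :
    mr (restrict (A₀ F) T) ≤ 2 := by
  by_cases h : ∃ i j : Fin 6, (i, j) ∈ T ∧ i < 2 ∧ j < 2
  · obtain ⟨i, j, hT, hi, hj⟩ := h
    refine (mr_le (B := B₂ F) ?_).trans (rank_B₂ F)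
    intro k l a hkl
    obtain ⟨hkl1, hkl2⟩ := restrict_eq hkl
    refine B₂_completion F k l a hkl2 ?_
    rintro ⟨hk, hl⟩
    rcases h2 i j k l hT hkl1 with h3 | h3
    · exact unknown₁ F i l hi hl (h1 h3)
    · exact unknown₂ F k j hk hj (h1 h3)
  · refine (mr_le (B := B₁ F) ?_).trans (rank_B₁ F)
    intro k l a hkl
    obtain ⟨hkl1, hkl2⟩ := restrict_eq hkl
    exact B₁_completion F k l a hkl2 fun h' => h ⟨k, l, hkl1, h'⟩

theorem tmr_le : tmr (A₀ F) ≤ 2 := by
  refine csSup_le' ?_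
  rintro r ⟨T, hT, rfl⟩
  exact mr_triangular F T hT.prop.1 hT.prop.2

/-- The row and column index of an entry of the blocks. -/
def idx (s : Fin 3) : Fin 2 → Fin 6 := ![![0, 1], ![2, 3], ![4, 5]] s

/-- The rows or columns of a block of `A₀ ⊗ I_b`. -/
def R (b : ℕ) (s : Fin 3) (p : Fin 2 × Fin b) : Fin 6 × Fin b := (idx s p.1, p.2)

/-- The matrix `C ⊗ I_b`. -/
def C (b : ℕ) : Matrix (Fin 2 × Fin b) (Fin 2 × Fin b) F := fun p q =>
  if p.2 = q.2 then (!![0, 1; 1, 1] : Matrix (Fin 2) (Fin 2) F) p.1 q.1 else 0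

theorem C_fixed (b : ℕ) (v : Fin 2 × Fin b → F) (h : C F b *ᵥ v = v) : v = 0 := by
  have h0 : ∀ q, v (1, q) = v (0, q) := by
    intro q
    have := congrFun h (0, q)
    simpa [C, Matrix.mulVec, dotProduct, Fintype.sum_prod_type, Fin.sum_univ_two] using this
  have h1 : ∀ q, v (0, q) = 0 := by
    intro q
    have := congrFun h (1, q)
    simpa [C, Matrix.mulVec, dotProduct, Fintype.sum_prod_type, Fin.sum_univ_two] using this
  funext ⟨p, q⟩
  fin_cases p
  · exact h1 q
  · exact (h0 q).trans (h1 q)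

theorem sub_one (b : ℕ) (B : Matrix (Fin 6 × Fin b) (Fin 6 × Fin b) F)
    (hB : IsCompletion (tensor (A₀ F) b) B) (s t : Fin 3)
    (hst : ∀ p p', A₀ F (idx s p) (idx t p') = some ((1 : Matrix (Fin 2) (Fin 2) F) p p')) :
    B.submatrix (R b s) (R b t) = 1 := by
  ext ⟨p, q⟩ ⟨p', q'⟩
  have := hB (idx s p, q) (idx t p', q')
    (if q = q' then (1 : Matrix (Fin 2) (Fin 2) F) p p' else 0) (by simp [tensor, hst])
  rw [Matrix.submatrix_apply, R, R, this, Matrix.one_apply, Matrix.one_apply]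
  simp only [Prod.mk.injEq]
  split_ifs <;> simp_all

theorem sub_C (b : ℕ) (B : Matrix (Fin 6 × Fin b) (Fin 6 × Fin b) F)
    (hB : IsCompletion (tensor (A₀ F) b) B) : B.submatrix (R b 2) (R b 0) = C F b := by
  ext ⟨p, q⟩ ⟨p', q'⟩
  have := hB (idx 2 p, q) (idx 0 p', q')
    (if q = q' then (!![0, 1; 1, 1] : Matrix (Fin 2) (Fin 2) F) p p' else 0) (by
      fin_cases p <;> fin_cases p' <;> simp [tensor, A₀, idx])
  rw [Matrix.submatrix_apply, R, R, this, C]

theorem rank_lower (b : ℕ) (B : Matrix (Fin 6 × Fin b) (Fin 6 × Fin b) F)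
    (hB : IsCompletion (tensor (A₀ F) b) B) : 3 * b ≤ B.rank := by
  have h00 : B.submatrix (R b 0) (R b 0) = 1 := sub_one F b B hB 0 0 (by
    intro p p'; fin_cases p <;> fin_cases p' <;> simp [A₀, idx])
  have h01 : B.submatrix (R b 0) (R b 1) = 1 := sub_one F b B hB 0 1 (by
    intro p p'; fin_cases p <;> fin_cases p' <;> simp [A₀, idx])
  have h11 : B.submatrix (R b 1) (R b 1) = 1 := sub_one F b B hB 1 1 (by
    intro p p'; fin_cases p <;> fin_cases p' <;> simp [A₀, idx])
  have h12 : B.submatrix (R b 1) (R b 2) = 1 := sub_one F b B hB 1 2 (by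
    intro p p'; fin_cases p <;> fin_cases p' <;> simp [A₀, idx])
  have h22 : B.submatrix (R b 2) (R b 2) = 1 := sub_one F b B hB 2 2 (by
    intro p p'; fin_cases p <;> fin_cases p' <;> simp [A₀, idx])
  have h20 := sub_C F b B hB
  set X := B.submatrix (R b 0) (R b 2) with hX
  have e1 : (Matrix.fromBlocks 1 X 1 1 :
      Matrix ((Fin 2 × Fin b) ⊕ (Fin 2 × Fin b)) ((Fin 2 × Fin b) ⊕ (Fin 2 × Fin b)) F) =
      B.submatrix (Sum.elim (R b 0) (R b 1)) (Sum.elim (R b 1) (R b 2)) := by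
    ext (i | i) (j | j)
    · exact (congrFun (congrFun h01 i) j).symm
    · rfl
    · exact (congrFun (congrFun h11 i) j).symm
    · exact (congrFun (congrFun h12 i) j).symm
  have e2 : (Matrix.fromBlocks 1 X (C F b) 1 :
      Matrix ((Fin 2 × Fin b) ⊕ (Fin 2 × Fin b)) ((Fin 2 × Fin b) ⊕ (Fin 2 × Fin b)) F) =
      B.submatrix (Sum.elim (R b 0) (R b 2)) (Sum.elim (R b 0) (R b 2)) := by
    ext (i | i) (j | j)
    · exact (congrFun (congrFun h00 i) j).symm
    · rfl
    · exact (congrFun (congrFun h20 i) j).symm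
    · exact (congrFun (congrFun h22 i) j).symm
  have := rank_two X (C F b) (C_fixed F b) B.rank
    (by rw [e1]; exact Matrix.rank_submatrix_le _ _ _)
    (by rw [e2]; exact Matrix.rank_submatrix_le _ _ _)
  rw [Fintype.card_prod, Fintype.card_fin, Fintype.card_fin] at this
  omega

theorem tensor_one {B : Matrix (Fin 6) (Fin 6) F} (hB : IsCompletion (A₀ F) B) :
    IsCompletion (tensor (A₀ F) 1) (B.submatrix Prod.fst Prod.fst) := by
  rintro ⟨i, q⟩ ⟨j, q'⟩ a h
  have hq : q = q' := Subsingleton.elim _ _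
  subst hq
  simp only [tensor, if_true, Option.map_id'] at h
  exact hB i j a h

theorem mr_eq : mr (A₀ F) = 3 := by
  apply le_antisymm
  · exact (mr_le (B₀_completion F)).trans (rank_B₀ F)
  · obtain ⟨B, hB, hr⟩ := exists_completion (A₀ F)
    rw [← hr]
    exact (rank_lower F 1 _ (tensor_one F hB)).trans (Matrix.rank_submatrix_le _ _ _)

theorem fmr_eq : fmr (A₀ F) = 3 := by
  apply le_antisymm
  · have hbdd : BddBelow (Set.range fun b : {b : ℕ // 1 ≤ b} =>
        (mr (tensor (A₀ F) b) : ℝ) / (b : ℕ)) := by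
      refine ⟨0, ?_⟩
      rintro _ ⟨b, rfl⟩
      positivity
    refine (ciInf_le hbdd ⟨1, le_rfl⟩).trans ?_
    have h := (mr_le (tensor_one F (B₀_completion F))).trans
      ((Matrix.rank_submatrix_le _ _ _).trans (rank_B₀ F))
    have h' : (mr (tensor (A₀ F) 1) : ℝ) ≤ 3 := by exact_mod_cast h
    change (mr (tensor (A₀ F) 1) : ℝ) / ((1 : ℕ) : ℝ) ≤ 3
    rwa [Nat.cast_one, div_one]
  · have : Nonempty {b : ℕ // 1 ≤ b} := ⟨⟨1, le_rfl⟩⟩
    refine le_ciInf fun b => ?_
    obtain ⟨B, hB, hr⟩ := exists_completion (tensor (A₀ F) b)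
    have h := rank_lower F b B hB
    have hb : (0 : ℝ) < (b : ℕ) := by exact_mod_cast b.2
    rw [le_div_iff₀ hb, ← hr]
    exact_mod_cast h

end example_

/-- **`Q1` is false over every field**: there is a partial matrix with `tmr < fmr = mr`. -/
theorem result (F : Type*) [Field F] : ∃ (m n : ℕ) (A : PartialMatrix F (Fin m) (Fin n)),
    (tmr A : ℝ) < fmr A ∧ fmr A = mr A := by
  refine ⟨6, 6, A₀ F, ?_, ?_⟩
  · rw [fmr_eq]
    have : (tmr (A₀ F) : ℝ) ≤ 2 := by exact_mod_cast tmr_le F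
    linarith
  · rw [fmr_eq, mr_eq]
    norm_num

end Pool.Agent.Results.MP_f8e91b_al.TmrLtFmrEqMr
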